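import Mathlib

universe w w'

namespace Pool.Agent.Results.MP_5076ba_lc.Mazoyer

open FirstOrder FirstOrder.Language Cardinal Set

/-! ### Canonical languages of homogeneous structures with finitely many types of tuples -/

/-- An assignment of one of finitely many invariants to each finite tuple of `Ω`, with the
one-point extension property. -/
structure Sys (Ω : Type) where
  Inv : ℕ → Type
  fin : ∀ n, Finite (Inv n)
  inv : ∀ {n}, (Fin n → Ω) → Inv n
  reindex : ∀ {m n} (σ : Fin m → Fin n) (a b : Fin n → Ω), inv a = inv b →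
    inv (a ∘ σ) = inv (b ∘ σ)
  eq_iff : ∀ {n} (a b : Fin n → Ω), inv a = inv b → ∀ i j, a i = a j → b i = b j
  ext : ∀ {n} (a b : Fin n → Ω), inv a = inv b → ∀ c, ∃ d,
    inv (Fin.snoc a c : Fin (n + 1) → Ω) = inv (Fin.snoc b d : Fin (n + 1) → Ω)

namespace Sys

variable {Ω : Type} (S : Sys Ω)

/-- The relational language with one symbol for each invariant. -/
def lang : FirstOrder.Language.{0, 0} := ⟨fun _ => Empty, S.Inv⟩

instance str : S.lang.Structure Ω where
  funMap := fun f => f.elim
  RelMap := fun r x => S.inv x = r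

/-- The complete theory of the structure. -/
def thy : S.lang.Theory := S.lang.completeTheory Ω

instance model : Ω ⊨ S.thy := inferInstanceAs (Ω ⊨ S.lang.completeTheory Ω)

lemma term_var {α : Type*} (t : S.lang.Term α) : ∃ x, t = Term.var x := by
  cases t with
  | var x => exact ⟨x, rfl⟩
  | func f _ => exact f.elim

/-- Formulas only depend on the invariant of a tuple. -/
lemma realize_iff {n : ℕ} (φ : S.lang.BoundedFormula Empty n) :
    ∀ (a b : Fin n → Ω), S.inv a = S.inv b →
      (φ.Realize default a ↔ φ.Realize default b) := by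
  induction φ with
  | falsum => intro a b _; exact Iff.rfl
  | equal t₁ t₂ =>
    intro a b hab
    obtain ⟨x₁, rfl⟩ := S.term_var t₁
    obtain ⟨x₂, rfl⟩ := S.term_var t₂
    rcases x₁ with x₁ | i
    · exact x₁.elim
    rcases x₂ with x₂ | j
    · exact x₂.elim
    exact ⟨S.eq_iff a b hab i j, S.eq_iff b a hab.symm i j⟩
  | rel R ts =>
    intro a b hab
    have h : ∀ k, ∃ i, ts k = Term.var (Sum.inr i) := by
      intro k
      obtain ⟨x, hx⟩ := S.term_var (ts k)
      rcases x with x | i
      · exact x.elim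
      · exact ⟨i, hx⟩
    choose σ hσ using h
    show Structure.RelMap R (fun k => (ts k).realize (Sum.elim default a)) ↔
      Structure.RelMap R (fun k => (ts k).realize (Sum.elim default b))
    have e : ∀ c : Fin _ → Ω, (fun k => (ts k).realize (Sum.elim default c)) = c ∘ σ := by
      intro c
      funext k
      rw [hσ k]
      rfl
    rw [e, e]
    show S.inv (a ∘ σ) = R ↔ S.inv (b ∘ σ) = R
    rw [S.reindex σ a b hab]
  | imp φ ψ ihφ ihψ =>
    intro a b hab
    rw [BoundedFormula.realize_imp, BoundedFormula.realize_imp, ihφ a b hab, ihψ a b hab]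
  | all φ ih =>
    intro a b hab
    rw [BoundedFormula.realize_all, BoundedFormula.realize_all]
    constructor
    · intro h d
      obtain ⟨c, hc⟩ := S.ext b a hab.symm d
      rw [ih _ _ hc]
      exact h c
    · intro h c
      obtain ⟨d, hd⟩ := S.ext a b hab c
      rw [ih _ _ hd]
      exact h d

lemma formula_iff {n : ℕ} (φ : S.lang.Formula (Fin n)) (a b : Fin n → Ω)
    (h : S.inv a = S.inv b) : φ.Realize a ↔ φ.Realize b := by
  rw [← Formula.realize_relabel_sumInr φ (v := default), ←
    Formula.realize_relabel_sumInr φ (v := default)]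
  exact S.realize_iff _ a b h

/-- The universal closure of a formula. -/
noncomputable def allS {n : ℕ} (φ : S.lang.Formula (Fin n)) : S.lang.Sentence :=
  Formula.iAlls (Fin n) (φ.relabel (Sum.inr : Fin n → Empty ⊕ Fin n))

lemma realize_allS {M : Type w} [S.lang.Structure M] {n : ℕ} (φ : S.lang.Formula (Fin n)) :
    M ⊨ S.allS φ ↔ ∀ x : Fin n → M, φ.Realize x := by
  rw [Sentence.Realize, allS, Formula.realize_iAlls]
  apply forall_congr'
  intro x
  rw [Formula.realize_relabel]
  rfl

lemma model_allS {M : Type w} [S.lang.Structure M] [M ⊨ S.thy] {n : ℕ}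
    (φ : S.lang.Formula (Fin n)) (h : ∀ x : Fin n → Ω, φ.Realize x) (x : Fin n → M) :
    φ.Realize x := by
  have h1 : S.allS φ ∈ S.thy := by
    show Ω ⊨ S.allS φ
    rw [realize_allS]
    exact h
  have h2 : M ⊨ S.allS φ := Theory.realize_sentence_of_mem S.thy h1
  rw [realize_allS] at h2
  exact h2 x

section models

variable (M : Type w) [S.lang.Structure M] [M ⊨ S.thy]

/-- Every tuple of a model has a representative in `Ω`. -/
lemma exists_rep {n : ℕ} (x : Fin n → M) :
    ∃ a : Fin n → Ω, Structure.RelMap (L := S.lang) (S.inv a) x := by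
  classical
  have := S.fin n
  let ι : Type := {r : S.Inv n // ∃ a : Fin n → Ω, S.inv a = r}
  let φ : S.lang.Formula (Fin n) := Formula.iSup (fun r : ι =>
    Relations.formula (L := S.lang) (r.1 : S.lang.Relations n) (fun i => Term.var i))
  have h := S.model_allS (M := M) φ (by
    intro a
    rw [Formula.realize_iSup]
    refine ⟨⟨S.inv a, a, rfl⟩, ?_⟩
    rw [Formula.realize_rel]
    rfl) x
  rw [Formula.realize_iSup] at h
  obtain ⟨⟨r, a, rfl⟩, hr⟩ := h
  rw [Formula.realize_rel] at hr
  exact ⟨a, hr⟩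

lemma formula_iff_model {n : ℕ} (φ : S.lang.Formula (Fin n)) (a : Fin n → Ω) (x : Fin n → M)
    (h : Structure.RelMap (L := S.lang) (S.inv a) x) : φ.Realize a ↔ φ.Realize x := by
  have key : ∀ ψ : S.lang.Formula (Fin n), ψ.Realize a → ψ.Realize x := by
    intro ψ hψ
    have h1 := S.model_allS (M := M)
      ((Relations.formula (L := S.lang) (S.inv a : S.lang.Relations n)
        (fun i => Term.var i)).imp ψ) (by
      intro b
      rw [Formula.realize_imp, Formula.realize_rel]
      intro hb
      have hb' : S.inv b = S.inv a := hb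
      rw [S.formula_iff ψ b a hb']
      exact hψ) x
    rw [Formula.realize_imp, Formula.realize_rel] at h1
    exact h1 h
  refine ⟨key φ, fun hx => ?_⟩
  by_contra ha
  have h2 := key φ.not (by rw [Formula.realize_not]; exact ha)
  rw [Formula.realize_not] at h2
  exact h2 hx

end models

/-- Two families, possibly in different structures, have the same invariants. -/
def Sim {ι : Type*} {M : Type w} {N : Type w'} [S.lang.Structure M] [S.lang.Structure N]
    (x : ι → M) (y : ι → N) : Prop :=
  ∀ (n : ℕ) (σ : Fin n → ι) (r : S.Inv n),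
    Structure.RelMap (L := S.lang) (r : S.lang.Relations n) (x ∘ σ) ↔
      Structure.RelMap (L := S.lang) (r : S.lang.Relations n) (y ∘ σ)

section sim

variable {S} {M : Type w} {N : Type w'} [S.lang.Structure M] [S.lang.Structure N]

lemma Sim.symm {ι : Type*} {x : ι → M} {y : ι → N} (h : S.Sim x y) : S.Sim y x :=
  fun n σ r => (h n σ r).symm

lemma Sim.trans {ι : Type*} {P : Type*} [S.lang.Structure P] {x : ι → M} {y : ι → N} {z : ι → P}
    (h : S.Sim x y) (h' : S.Sim y z) : S.Sim x z :=
  fun n σ r => (h n σ r).trans (h' n σ r)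

lemma Sim.comp {ι κ : Type*} {x : ι → M} {y : ι → N} (h : S.Sim x y) (τ : κ → ι) :
    S.Sim (x ∘ τ) (y ∘ τ) :=
  fun n σ r => h n (τ ∘ σ) r

variable [M ⊨ S.thy] [N ⊨ S.thy]

/-- A tuple and its representative are similar. -/
lemma sim_of_rel {n : ℕ} (a : Fin n → Ω) (x : Fin n → M)
    (h : Structure.RelMap (L := S.lang) (S.inv a) x) : S.Sim a x := by
  intro m σ r
  have h1 := S.formula_iff_model M
    (Relations.formula (L := S.lang) (r : S.lang.Relations m) (fun i => Term.var (σ i))) a x h
  rw [Formula.realize_rel, Formula.realize_rel] at h1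
  exact h1

/-- Similar families satisfy the same formulas. -/
theorem Sim.realize {ι : Type*} {x : ι → M} {y : ι → N} (h : S.Sim x y)
    (φ : S.lang.Formula ι) : φ.Realize x ↔ φ.Realize y := by
  classical
  obtain ⟨e⟩ : Nonempty (Fin φ.freeVarFinset.card ≃ φ.freeVarFinset) :=
    ⟨φ.freeVarFinset.equivFin.symm⟩
  let φ' : S.lang.Formula (Fin φ.freeVarFinset.card) := φ.restrictFreeVar (fun a => e.symm a)
  have h1 : ∀ {P : Type w} [S.lang.Structure P] (z : ι → P),
      φ'.Realize (fun i => z (e i)) ↔ φ.Realize z := by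
    intro P _ z
    exact BoundedFormula.realize_restrictFreeVar z (fun a => by simp)
  have h2 : ∀ {P : Type w'} [S.lang.Structure P] (z : ι → P),
      φ'.Realize (fun i => z (e i)) ↔ φ.Realize z := by
    intro P _ z
    exact BoundedFormula.realize_restrictFreeVar z (fun a => by simp)
  rw [← h1, ← h2]
  obtain ⟨a, ha⟩ := S.exists_rep M (fun i => x (e i))
  have hb := (h _ (fun i => (e i : ι)) (S.inv a)).mp ha
  rw [← S.formula_iff_model M φ' a _ ha]
  exact S.formula_iff_model N φ' a _ hb

/-- Finite families can be represented in `Ω`. -/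
lemma exists_sim {ι : Type*} [Finite ι] (x : ι → M) : ∃ a : ι → Ω, S.Sim a x := by
  obtain ⟨n, ⟨e⟩⟩ := Finite.exists_equiv_fin ι
  obtain ⟨a, ha⟩ := S.exists_rep M (x ∘ e.symm)
  refine ⟨a ∘ e, ?_⟩
  have h := (sim_of_rel a _ ha).comp e
  have h2 : (x ∘ e.symm) ∘ e = x := by
    funext i
    simp
  rwa [h2] at h

/-- The extension property between models, for finitely many new points. -/
lemma Sim.extend {ι : Type*} {κ : Type*} [Finite ι] [Finite κ] {x : ι → M} {y : ι → N} (h : S.Sim x y)
    (c : κ → M) : ∃ d : κ → N, S.Sim (Sum.elim x c) (Sum.elim y d) := by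
  obtain ⟨n, ⟨e⟩⟩ := Finite.exists_equiv_fin (ι ⊕ κ)
  obtain ⟨a, ha⟩ := S.exists_rep M (Sum.elim x c ∘ e.symm)
  let ψ : S.lang.Formula (ι ⊕ κ) :=
    Relations.formula (L := S.lang) (S.inv a : S.lang.Relations n) (fun i => Term.var (e.symm i))
  have h1 : (ψ.iExs κ).Realize x := by
    rw [Formula.realize_iExs]
    refine ⟨c, ?_⟩
    rw [Formula.realize_rel]
    exact ha
  rw [h.realize, Formula.realize_iExs] at h1
  obtain ⟨d, hd⟩ := h1
  rw [Formula.realize_rel] at hd
  refine ⟨d, ?_⟩
  have hx := (sim_of_rel a _ ha).comp e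
  have hy := (sim_of_rel (M := N) a (Sum.elim y d ∘ e.symm) hd).comp e
  have hx2 : (Sum.elim x c ∘ e.symm) ∘ e = Sum.elim x c := by
    funext i
    simp
  have hy2 : (Sum.elim y d ∘ e.symm) ∘ e = Sum.elim y d := by
    funext i
    simp
  rw [hx2] at hx
  rw [hy2] at hy
  exact hx.symm.trans hy

lemma Sim.eq_iff {ι : Type*} {x : ι → M} {y : ι → N} (h : S.Sim x y) (i j : ι) :
    x i = x j ↔ y i = y j := by
  have h1 := h.realize (Term.equal (Term.var i) (Term.var j))
  rw [Formula.realize_equal, Formula.realize_equal] at h1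
  exact h1

lemma sim_iff_inv {n : ℕ} (a b : Fin n → Ω) : S.Sim a b ↔ S.inv a = S.inv b := by
  constructor
  · intro h
    exact ((h n id (S.inv a)).mp rfl).symm
  · intro h
    exact sim_of_rel a b h.symm

end sim

/-! ### Countable categoricity -/

section categorical

variable (M : Type w) [S.lang.Structure M] [M ⊨ S.thy]

/-- Finite partial isomorphisms. -/
def PIso : Type w := {P : Finset (Ω × M) // S.Sim (fun p : P => p.1.1) (fun p : P => p.1.2)}

instance : PartialOrder (PIso S M) := inferInstanceAs (PartialOrder {P : Finset (Ω × M) //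
  S.Sim (fun p : P => p.1.1) (fun p : P => p.1.2)})

variable {M}

omit [M ⊨ S.thy] in
lemma insert_sim [DecidableEq (Ω × M)] (P : Finset (Ω × M))
    (c : Ω) (d : M)
    (h : S.Sim (Sum.elim (fun p : P => p.1.1) (fun _ : Unit => c))
      (Sum.elim (fun p : P => p.1.2) (fun _ : Unit => d))) :
    S.Sim (fun p : (insert (c, d) P : Finset (Ω × M)) => p.1.1)
      (fun p : (insert (c, d) P : Finset (Ω × M)) => p.1.2) := by
  have h2 : ∀ p : (insert (c, d) P : Finset (Ω × M)), ∃ q : P ⊕ Unit,
      Sum.elim (fun p : P => p.1.1) (fun _ : Unit => c) q = p.1.1 ∧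
      Sum.elim (fun p : P => p.1.2) (fun _ : Unit => d) q = p.1.2 := by
    rintro ⟨p, hp⟩
    rw [Finset.mem_insert] at hp
    rcases hp with rfl | hp
    · exact ⟨Sum.inr (), rfl, rfl⟩
    · exact ⟨Sum.inl ⟨p, hp⟩, rfl, rfl⟩
  choose τ hτ1 hτ2 using h2
  have h3 := h.comp τ
  have e1 : (Sum.elim (fun p : P => p.1.1) (fun _ : Unit => c)) ∘ τ =
      fun p : (insert (c, d) P : Finset (Ω × M)) => p.1.1 := funext hτ1
  have e2 : (Sum.elim (fun p : P => p.1.2) (fun _ : Unit => d)) ∘ τ =
      fun p : (insert (c, d) P : Finset (Ω × M)) => p.1.2 := funext hτ2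
  rwa [e1, e2] at h3

lemma forth (P : PIso S M) (c : Ω) : ∃ Q : PIso S M, P ≤ Q ∧ ∃ d, (c, d) ∈ Q.1 := by
  classical
  obtain ⟨d, hd⟩ := P.2.extend (fun _ : Unit => c)
  refine ⟨⟨insert (c, d ()) P.1, S.insert_sim P.1 c (d ()) ?_⟩, ?_, d (), ?_⟩
  · convert hd using 1
  · exact Finset.subset_insert _ _
  · exact Finset.mem_insert_self _ _

lemma back (P : PIso S M) (d : M) : ∃ Q : PIso S M, P ≤ Q ∧ ∃ c, (c, d) ∈ Q.1 := by
  classical
  obtain ⟨c, hc⟩ := P.2.symm.extend (fun _ : Unit => d)
  refine ⟨⟨insert (c (), d) P.1, S.insert_sim P.1 (c ()) d ?_⟩, ?_, c (), ?_⟩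
  · exact hc.symm
  · exact Finset.subset_insert _ _
  · exact Finset.mem_insert_self _ _

theorem nonempty_equiv [Countable Ω] [Countable M] : Nonempty (Ω ≃[S.lang] M) := by
  classical
  have : Encodable Ω := Encodable.ofCountable Ω
  have : Encodable M := Encodable.ofCountable M
  let P₀ : PIso S M := ⟨∅, by
    obtain ⟨a, ha⟩ := exists_sim (S := S) (fun p : (∅ : Finset (Ω × M)) => p.1.2)
    have : a = (fun p : (∅ : Finset (Ω × M)) => p.1.1) := by
      funext p
      exact absurd p.2 (Finset.notMem_empty _)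
    rwa [this] at ha⟩
  let 𝒟 : Ω ⊕ M → Order.Cofinal (PIso S M) := fun t => match t with
    | .inl c => ⟨{Q | ∃ d, (c, d) ∈ Q.1}, fun P => by
        obtain ⟨Q, h1, h2⟩ := S.forth P c
        exact ⟨Q, h2, h1⟩⟩
    | .inr d => ⟨{Q | ∃ c, (c, d) ∈ Q.1}, fun P => by
        obtain ⟨Q, h1, h2⟩ := S.back P d
        exact ⟨Q, h2, h1⟩⟩
  let I := Order.idealOfCofinals P₀ 𝒟
  -- any finite set of pairs occurring in the ideal occurs at once
  let G : Set (Ω × M) := {p | ∃ P ∈ I, p ∈ P.1}
  have hfin : ∀ (n : ℕ) (σ : Fin n → G), ∃ P ∈ I, ∀ i, (σ i).1 ∈ P.1 := by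
    intro n
    induction n with
    | zero => intro σ; exact ⟨P₀, Order.mem_idealOfCofinals _ _, fun i => i.elim0⟩
    | succ n ih =>
      intro σ
      obtain ⟨P, hP, h1⟩ := ih (fun i => σ i.castSucc)
      obtain ⟨P', hP', h2⟩ := (σ (Fin.last n)).2
      obtain ⟨R, hR, h3, h4⟩ := I.directed P hP P' hP'
      refine ⟨R, hR, fun i => ?_⟩
      refine Fin.lastCases ?_ (fun j => ?_) i
      · exact h4 h2
      · exact h3 (h1 j)
  have hG : S.Sim (fun p : G => p.1.1) (fun p : G => p.1.2) := by
    intro n σ r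
    obtain ⟨P, _, h⟩ := hfin n σ
    exact P.2 n (fun i => ⟨(σ i).1, h i⟩) r
  have hdom : ∀ c, ∃ d, (c, d) ∈ G := by
    intro c
    obtain ⟨Q, ⟨d, hd⟩, hQ⟩ := Order.cofinal_meets_idealOfCofinals P₀ 𝒟 (.inl c)
    exact ⟨d, Q, hQ, hd⟩
  have hcod : ∀ d, ∃ c, (c, d) ∈ G := by
    intro d
    obtain ⟨Q, ⟨c, hc⟩, hQ⟩ := Order.cofinal_meets_idealOfCofinals P₀ 𝒟 (.inr d)
    exact ⟨c, Q, hQ, hc⟩
  choose f hf using hdom
  choose g hg using hcod
  have hinj : ∀ p q : G, p.1.1 = q.1.1 ↔ p.1.2 = q.1.2 := fun p q => hG.eq_iff p q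
  refine ⟨⟨⟨f, g, fun c => ?_, fun d => ?_⟩, fun φ => φ.elim, fun {n} r x => ?_⟩⟩
  · exact (hinj ⟨(g (f c), f c), hg _⟩ ⟨(c, f c), hf c⟩).mpr rfl
  · exact (hinj ⟨(g d, f (g d)), hf _⟩ ⟨(g d, d), hg d⟩).mp rfl
  · exact (hG n (fun i => ⟨(x i, f (x i)), hf _⟩) r).symm

end categorical

end Sys

/-! ### The structure: an affine space and an infinite cover of another affine space -/

/-- The vector space of countable dimension over the field with two elements. -/
abbrev V : Type := ℕ →₀ ZMod 2

/-- The universe: the affine space `V` and the cover `V × ℕ` of a second copy of it. -/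
abbrev Om : Type := V ⊕ (V × ℕ)

/-- The vector of an element, with two extra coordinates which record the sort. -/
def hat : Om → V × ZMod 2 × ZMod 2
  | .inl v => (v, 1, 0)
  | .inr p => (p.1, 0, 1)

/-- The sort of an element. -/
def isX : Om → Bool
  | .inl _ => true
  | .inr _ => false

lemma hat_snd (c d : Om) (h : isX c = isX d) : (hat c).2 = (hat d).2 := by
  rcases c with c | c <;> rcases d with d | d <;> simp_all [isX, hat]

lemma isX_of_hat (c d : Om) (h : (hat c).2 = (hat d).2) : isX c = isX d := by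
  rcases c with c | c <;> rcases d with d | d <;> simp_all [isX, hat]

lemma eq_of_hat (c d : Om) (hc : isX c = true) (hd : isX d = true) (h : hat c = hat d) : c = d := by
  rcases c with c | c <;> rcases d with d | d <;> simp_all [isX, hat]

/-- Linear combinations of the vectors of a family. -/
noncomputable def comb {ι : Type*} [Fintype ι] (v : ι → Om) (ε : ι → ZMod 2) : V × ZMod 2 × ZMod 2 :=
  ∑ i, ε i • hat (v i)

/-- Two families have the same sorts, equalities and linear relations. -/
structure Csim {ι : Type*} [Fintype ι] (v u : ι → Om) : Prop where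
  sort : ∀ i, isX (v i) = isX (u i)
  eq : ∀ i j, v i = v j ↔ u i = u j
  lin : ∀ ε, comb v ε = 0 ↔ comb u ε = 0

lemma Csim.refl {ι : Type*} [Fintype ι] (v : ι → Om) : Csim v v :=
  ⟨fun _ => rfl, fun _ _ => Iff.rfl, fun _ => Iff.rfl⟩

lemma Csim.symm {ι : Type*} [Fintype ι] {v u : ι → Om} (h : Csim v u) : Csim u v :=
  ⟨fun i => (h.sort i).symm, fun i j => (h.eq i j).symm, fun ε => (h.lin ε).symm⟩

lemma Csim.trans {ι : Type*} [Fintype ι] {v u z : ι → Om} (h : Csim v u) (h' : Csim u z) :
    Csim v z :=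
  ⟨fun i => (h.sort i).trans (h'.sort i), fun i j => (h.eq i j).trans (h'.eq i j),
    fun ε => (h.lin ε).trans (h'.lin ε)⟩

lemma comb_comp {ι κ : Type*} [Fintype ι] [Fintype κ] (v : ι → Om) (τ : κ → ι) (ε : κ → ZMod 2) :
    ∃ δ : ι → ZMod 2, ∀ u : ι → Om, comb (u ∘ τ) ε = comb u δ := by
  classical
  refine ⟨fun i => ∑ j with τ j = i, ε j, fun u => ?_⟩
  unfold comb
  rw [← Finset.sum_fiberwise Finset.univ τ]
  apply Finset.sum_congr rfl
  intro i _
  rw [Finset.sum_smul]
  apply Finset.sum_congr rfl
  intro j hj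
  rw [Finset.mem_filter] at hj
  rw [Function.comp_apply, hj.2]

lemma Csim.comp {ι κ : Type*} [Fintype ι] [Fintype κ] {v u : ι → Om} (h : Csim v u) (τ : κ → ι) :
    Csim (v ∘ τ) (u ∘ τ) := by
  refine ⟨fun i => h.sort _, fun i j => h.eq _ _, fun ε => ?_⟩
  obtain ⟨δ, hδ⟩ := comb_comp v τ ε
  rw [hδ, hδ]
  exact h.lin δ

/-- The family `v` with one more element `c`. -/
abbrev cons {ι : Type*} {A : Type*} (v : ι → A) (c : A) : ι ⊕ Unit → A := Sum.elim v (fun _ => c)

lemma comb_cons {ι : Type*} [Fintype ι] (v : ι → Om) (c : Om) (ε : ι ⊕ Unit → ZMod 2) :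
    comb (cons v c) ε = comb v (ε ∘ Sum.inl) + ε (Sum.inr ()) • hat c := by
  simp [comb, cons, Fintype.sum_sum_type]

lemma comb_add {ι : Type*} [Fintype ι] (v : ι → Om) (ε δ : ι → ZMod 2) :
    comb v (ε + δ) = comb v ε + comb v δ := by
  simp [comb, add_smul, Finset.sum_add_distrib]

lemma comb_single {ι : Type*} [Fintype ι] [DecidableEq ι] (v : ι → Om) (i : ι) :
    comb v (Pi.single i 1) = hat (v i) := by
  unfold comb
  rw [Finset.sum_eq_single i]
  · simp
  · intro j _ hj
    simp [hj]
  · simp

lemma add_self_vh (x : V × ZMod 2 × ZMod 2) : x + x = 0 := by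
  have h : (2 : ZMod 2) = 0 := rfl
  have h2 : x + x = (2 : ZMod 2) • x := by rw [two_smul]
  rw [h2, h, zero_smul]

lemma add_eq_zero_vh (x y : V × ZMod 2 × ZMod 2) : x + y = 0 ↔ x = y := by
  constructor
  · intro h
    have h1 : x + y + y = y := by rw [h, zero_add]
    rwa [add_assoc, add_self_vh, add_zero] at h1
  · rintro rfl
    exact add_self_vh x

lemma zmod2_cases (x : ZMod 2) : x = 0 ∨ x = 1 := by
  revert x
  decide

/-- `c` depends linearly on the family `v`. -/
def Dep {ι : Type*} [Fintype ι] (v : ι → Om) (c : Om) : Prop := ∃ ε, hat c = comb v ε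

lemma csim_cons_of_lin {ι : Type*} [Fintype ι] {v u : ι → Om} (h : Csim v u) {c d : Om}
    (hs : isX c = isX d) (hc : ∀ i, c ≠ v i) (hd : ∀ i, d ≠ u i)
    (hl : ∀ ε, hat c = comb v ε ↔ hat d = comb u ε) : Csim (cons v c) (cons u d) := by
  refine ⟨?_, ?_, ?_⟩
  · rintro (i | i)
    · exact h.sort i
    · exact hs
  · rintro (i | i) (j | j)
    · exact h.eq i j
    · exact ⟨fun h1 => absurd h1.symm (hc i), fun h1 => absurd h1.symm (hd i)⟩
    · exact ⟨fun h1 => absurd h1 (hc j), fun h1 => absurd h1 (hd j)⟩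
    · exact ⟨fun _ => rfl, fun _ => rfl⟩
  · intro ε
    rw [comb_cons, comb_cons]
    rcases zmod2_cases (ε (Sum.inr ())) with h0 | h0
    · rw [h0, zero_smul, zero_smul, add_zero, add_zero]
      exact h.lin _
    · rw [h0, one_smul, one_smul, add_eq_zero_vh, add_eq_zero_vh, eq_comm, hl, eq_comm]

lemma ne_of_not_dep {ι : Type*} [Fintype ι] {v : ι → Om} {c : Om} (h : ¬ Dep v c) (i : ι) :
    c ≠ v i := by
  classical
  rintro rfl
  exact h ⟨Pi.single i 1, (comb_single v i).symm⟩

/-- Elements of the same sort outside the span are indistinguishable. -/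
lemma csim_generic {ι : Type*} [Fintype ι] {v u : ι → Om} (h : Csim v u) {c d : Om}
    (hs : isX c = isX d) (hc : ¬ Dep v c) (hd : ¬ Dep u d) : Csim (cons v c) (cons u d) := by
  refine csim_cons_of_lin h hs (ne_of_not_dep hc) (ne_of_not_dep hd) (fun ε => ?_)
  exact ⟨fun h1 => absurd ⟨ε, h1⟩ hc, fun h1 => absurd ⟨ε, h1⟩ hd⟩

/-- Elements of the same sort with the same vector are indistinguishable. -/
lemma csim_fibre {ι : Type*} [Fintype ι] {v u : ι → Om} (h : Csim v u) {c d : Om}
    (hs : isX c = isX d) (ε : ι → ZMod 2) (hc : hat c = comb v ε) (hd : hat d = comb u ε)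
    (hc' : ∀ i, c ≠ v i) (hd' : ∀ i, d ≠ u i) : Csim (cons v c) (cons u d) := by
  refine csim_cons_of_lin h hs hc' hd' (fun δ => ?_)
  rw [hc, hd, ← add_eq_zero_vh (comb v ε), ← add_eq_zero_vh (comb u ε), ← comb_add, ← comb_add]
  exact h.lin _

lemma exists_generic {ι : Type*} [Fintype ι] (u : ι → Om) (b : Bool) (s : Finset V) :
    ∃ d, isX d = b ∧ ¬ Dep u d ∧ (hat d).1 ∉ s := by
  classical
  let t : Finset V := (Finset.univ.image (fun ε : ι → ZMod 2 => (comb u ε).1)) ∪ s
  obtain ⟨x, hx⟩ := Infinite.exists_notMem_finset t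
  rw [Finset.mem_union, not_or] at hx
  have h : ∀ d : Om, (hat d).1 = x → ¬ Dep u d ∧ (hat d).1 ∉ s := by
    rintro d hd
    refine ⟨?_, by rw [hd]; exact hx.2⟩
    rintro ⟨ε, hε⟩
    apply hx.1
    rw [Finset.mem_image]
    exact ⟨ε, Finset.mem_univ _, by rw [← hε, hd]⟩
  cases b with
  | true => exact ⟨.inl x, rfl, h _ rfl⟩
  | false => exact ⟨.inr (x, 0), rfl, h _ rfl⟩

lemma comb_snd {ι : Type*} [Fintype ι] {v u : ι → Om} (h : Csim v u) (ε : ι → ZMod 2) :
    (comb v ε).2 = (comb u ε).2 := by
  unfold comb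
  rw [Prod.snd_sum, Prod.snd_sum]
  apply Finset.sum_congr rfl
  intro i _
  rw [Prod.smul_snd, Prod.smul_snd, hat_snd _ _ (h.sort i)]

/-- The one-point extension property. -/
theorem csim_ext {ι : Type*} [Fintype ι] {v u : ι → Om} (h : Csim v u) (c : Om) :
    ∃ d, Csim (cons v c) (cons u d) := by
  classical
  by_cases h1 : ∃ i, c = v i
  · obtain ⟨i, rfl⟩ := h1
    refine ⟨u i, ?_⟩
    have h2 := h.comp (Sum.elim id (fun _ : Unit => i))
    convert h2 using 1
    · funext j
      rcases j with j | j <;> rfl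
    · funext j
      rcases j with j | j <;> rfl
  push Not at h1
  by_cases h2 : Dep v c
  · obtain ⟨ε, hε⟩ := h2
    have hsnd : (comb u ε).2 = (hat c).2 := by rw [hε, comb_snd h]
    cases hc : isX c with
    | true =>
      have hd : hat (.inl (comb u ε).1) = comb u ε := by
        refine Prod.ext rfl ?_
        rw [hsnd]
        exact hat_snd _ _ hc.symm
      refine ⟨.inl (comb u ε).1, csim_fibre h hc ε hε hd h1 ?_⟩
      intro i hi
      apply h1 i
      have h3 : comb u (ε + Pi.single i 1) = 0 := by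
        rw [comb_add, comb_single, ← hi, hd, add_self_vh]
      rw [← h.lin, comb_add, comb_single, ← hε, add_eq_zero_vh] at h3
      apply eq_of_hat _ _ hc _ h3
      rw [h.sort, ← hi]
      rfl
    | false =>
      obtain ⟨m, hm⟩ := Infinite.exists_notMem_finset
        (Finset.univ.image (fun i => match u i with | .inl _ => 0 | .inr p => p.2) : Finset ℕ)
      have hd : hat (.inr ((comb u ε).1, m)) = comb u ε := by
        refine Prod.ext rfl ?_
        rw [hsnd]
        exact hat_snd _ _ hc.symm
      refine ⟨.inr ((comb u ε).1, m), csim_fibre h hc ε hε hd h1 ?_⟩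
      intro i hi
      apply hm
      rw [Finset.mem_image]
      refine ⟨i, Finset.mem_univ _, ?_⟩
      rw [← hi]
  · obtain ⟨d, hd, hd2, _⟩ := exists_generic u (isX c) ∅
    exact ⟨d, csim_generic h hd.symm h2 hd2⟩


/-! ### The homogeneous structure on `Om` -/

lemma inv_iff_csim {n : ℕ} (a b : Fin n → Om) :
    (((fun i => isX (a i), fun i j => a i = a j, fun ε => comb a ε = 0) :
      (Fin n → Bool) × (Fin n → Fin n → Prop) × ((Fin n → ZMod 2) → Prop)) =
      (fun i => isX (b i), fun i j => b i = b j, fun ε => comb b ε = 0)) ↔ Csim a b := by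
  constructor
  · intro h
    rw [Prod.ext_iff, Prod.ext_iff] at h
    obtain ⟨h1, h2, h3⟩ := h
    exact ⟨fun i => congrFun h1 i, fun i j => iff_of_eq (congrFun (congrFun h2 i) j),
      fun ε => iff_of_eq (congrFun h3 ε)⟩
  · intro h
    refine Prod.ext (funext h.sort) (Prod.ext ?_ ?_)
    · funext i j
      exact propext (h.eq i j)
    · funext ε
      exact propext (h.lin ε)

/-- The system of invariants of the structure. -/
noncomputable def sys : Sys Om where
  Inv n := (Fin n → Bool) × (Fin n → Fin n → Prop) × ((Fin n → ZMod 2) → Prop)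
  fin := fun n => inferInstance
  inv a := (fun i => isX (a i), fun i j => a i = a j, fun ε => comb a ε = 0)
  reindex := by
    intro m n σ a b h
    rw [inv_iff_csim] at h ⊢
    exact h.comp σ
  eq_iff := by
    intro n a b h i j
    rw [inv_iff_csim] at h
    exact (h.eq i j).mp
  ext := by
    intro n a b h c
    rw [inv_iff_csim] at h
    obtain ⟨d, hd⟩ := csim_ext h c
    refine ⟨d, ?_⟩
    rw [inv_iff_csim]
    have h2 := hd.comp (Fin.snoc (fun i => Sum.inl i) (Sum.inr ()) : Fin (n + 1) → Fin n ⊕ Unit)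
    convert h2 using 1
    · funext i
      refine Fin.lastCases ?_ (fun j => ?_) i <;> simp
    · funext i
      refine Fin.lastCases ?_ (fun j => ?_) i <;> simp

lemma sim_iff_csim {ι : Type*} [Fintype ι] (v u : ι → Om) : sys.Sim v u ↔ Csim v u := by
  constructor
  · intro h
    obtain ⟨n, ⟨e⟩⟩ := Finite.exists_equiv_fin ι
    have h1 := h.comp e.symm
    rw [Sys.sim_iff_inv] at h1
    have h2 : Csim (v ∘ e.symm) (u ∘ e.symm) := (inv_iff_csim _ _).mp h1
    have h3 := h2.comp e
    have h4 : ∀ w : ι → Om, (w ∘ e.symm) ∘ e = w := fun w => by funext i; simp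
    rwa [h4, h4] at h3
  · intro h n σ r
    have h1 := h.comp σ
    have h2 : sys.inv (v ∘ σ) = sys.inv (u ∘ σ) := (inv_iff_csim _ _).mpr h1
    show sys.inv (v ∘ σ) = r ↔ sys.inv (u ∘ σ) = r
    rw [h2]

/-! ### The notions of the statement -/

/-- The algebraic closure of a set `A` in a structure: the union of the finite sets which are
definable with parameters from `A`. -/
def acl (L : FirstOrder.Language.{0, 0}) {M : Type w} [L.Structure M] (A : Set M) : Set M :=
  {x | ∃ S : Set M, A.Definable₁ L S ∧ S.Finite ∧ x ∈ S}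

/-- `RankGE L n S`: the Morley rank of `S` is at least `n`, where ranks are computed with the
parameter-definable subsets of `M`. -/
def RankGE (L : FirstOrder.Language.{0, 0}) {M : Type w} [L.Structure M] : ℕ → Set M → Prop
  | 0, S => S.Nonempty
  | n + 1, S => ∃ F : ℕ → Set M,
      (∀ i, (Set.univ : Set M).Definable₁ L (F i) ∧ F i ⊆ S ∧ RankGE L n (F i)) ∧
      ∀ i j, i ≠ j → Disjoint (F i) (F j)

/-- The solution set of a formula in one variable. -/
def solutions {L : FirstOrder.Language.{0, 0}} (M : Type w) [L.Structure M]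
    (φ : L.Formula (Fin 1)) : Set M :=
  {x | φ.Realize (fun _ => x)}

/-- The complete type `p` over the empty set has Morley rank `1` and Morley degree `1`, computed
in `M`: every formula of `p` has Morley rank at least one, and some formula of `p` has Morley rank
less than two and does not contain two disjoint definable sets of Morley rank at least one. -/
def IsStronglyMinimalType {L : FirstOrder.Language.{0, 0}} {T : L.Theory}
    (p : T.CompleteType (Fin 1)) (M : Type w) [L.Structure M] : Prop :=
  (∀ φ : L.Formula (Fin 1), Formula.equivSentence φ ∈ p → RankGE L 1 (solutions M φ)) ∧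
  ∃ φ : L.Formula (Fin 1), Formula.equivSentence φ ∈ p ∧ ¬ RankGE L 2 (solutions M φ) ∧
    ¬ ∃ S₁ S₂ : Set M, (Set.univ : Set M).Definable₁ L S₁ ∧ (Set.univ : Set M).Definable₁ L S₂ ∧
      S₁ ⊆ solutions M φ ∧ S₂ ⊆ solutions M φ ∧ Disjoint S₁ S₂ ∧ RankGE L 1 S₁ ∧ RankGE L 1 S₂

/-- `T` is `ω`-stable: over every countable set of parameters in a model there are only countably
many complete `n`-types, for each `n`. -/
def OmegaStable {L : FirstOrder.Language.{0, 0}} (T : L.Theory) : Prop :=
  ∀ (M : Type w) [L.Structure M] [Nonempty M] [M ⊨ T] (A : Set M), A.Countable →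
    ∀ n : ℕ, Countable ((L[[A]].completeTheory M).CompleteType (Fin n))

/-! ### Definable sets in models -/

section definable

variable {L : FirstOrder.Language.{0, 0}} {M : Type w} [L.Structure M]

lemma definable_range_iff {ι : Type*} (x : ι → M) (S : Set M) :
    (Set.range x).Definable₁ L S ↔
      ∃ φ : L.Formula (ι ⊕ Unit), S = {y | φ.Realize (cons x y)} := by
  classical
  rw [Set.Definable₁, Set.definable_iff_exists_formula_sum]
  constructor
  · rintro ⟨φ, hφ⟩
    have h : ∀ a : Set.range x, ∃ i, x i = a := fun a => a.2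
    choose f hf using h
    refine ⟨φ.relabel (Sum.map f (fun _ => ())), ?_⟩
    ext y
    have h1 : y ∈ S ↔ (fun _ : Fin 1 => y) ∈ {x : Fin 1 → M | x 0 ∈ S} := Iff.rfl
    rw [h1, hφ, Set.mem_ofPred_eq, Set.mem_ofPred_eq, Formula.realize_relabel]
    have h2 : (Sum.elim (fun a : Set.range x => (a : M)) (fun _ : Fin 1 => y)) =
        (cons x y) ∘ (Sum.map f (fun _ => ())) := by
      funext t
      rcases t with t | t
      · exact (hf t).symm
      · rfl
    rw [← h2]
  · rintro ⟨φ, hφ⟩
    refine ⟨φ.relabel (Sum.map (fun i => ⟨x i, i, rfl⟩) (fun _ => 0)), ?_⟩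
    ext y
    rw [Set.mem_ofPred_eq, Set.mem_ofPred_eq, hφ, Set.mem_ofPred_eq, Formula.realize_relabel]
    have h2 : (Sum.elim (fun a : Set.range x => (a : M)) y) ∘
        (Sum.map (fun i => ⟨x i, i, rfl⟩) (fun _ => 0)) = cons x (y 0) := by
      funext t
      rcases t with t | t <;> rfl
    rw [h2]

lemma definable_univ_iff (S : Set M) (h : (Set.univ : Set M).Definable₁ L S) :
    ∃ (A : Finset M) (φ : L.Formula (A ⊕ Unit)),
      S = {y | φ.Realize (cons (fun a : A => (a : M)) y)} := by
  rw [Set.Definable₁, Set.definable_iff_finitely_definable] at h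
  obtain ⟨A, _, hA⟩ := h
  refine ⟨A, ?_⟩
  rw [← definable_range_iff]
  have : Set.range (fun a : A => (a : M)) = (A : Set M) := Subtype.range_coe
  rw [this]
  exact hA

lemma acl_mono {A B : Set M} (h : A ⊆ B) : acl L A ⊆ acl L B := by
  rintro x ⟨S, h1, h2, h3⟩
  exact ⟨S, h1.mono h, h2, h3⟩

lemma subset_acl (A : Set M) : A ⊆ acl L A := by
  intro x hx
  exact ⟨{x}, Set.Definable.singleton_of_mem L hx, Set.finite_singleton x, rfl⟩

lemma rankGE_one_iff (S : Set M) : RankGE L 1 S ↔ S.Infinite := by
  constructor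
  · rintro ⟨F, hF, hd⟩ hfin
    have h1 : ∀ i, ∃ x, x ∈ F i := fun i => (hF i).2.2
    choose x hx using h1
    have hinj : Function.Injective x := by
      intro i j hij
      by_contra hne
      exact Set.disjoint_left.mp (hd i j hne) (hx i) (hij ▸ hx j)
    have h2 : Set.range x ⊆ S := by
      rintro _ ⟨i, rfl⟩
      exact (hF i).2.1 (hx i)
    exact Set.infinite_range_of_injective hinj (hfin.subset h2)
  · intro hinf
    let e := hinf.natEmbedding
    refine ⟨fun i => {(e i : M)}, fun i => ⟨?_, ?_, ?_⟩, ?_⟩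
    · exact Set.Definable.singleton_of_mem L (Set.mem_univ _)
    · rintro _ rfl
      exact (e i).2
    · exact ⟨_, rfl⟩
    · intro i j hij
      rw [Set.disjoint_singleton]
      intro h
      exact hij (e.injective (Subtype.ext h))

end definable

/-! ### Geometry in the models of the theory -/

section geometry

variable {M : Type w} [sys.lang.Structure M] [M ⊨ sys.thy]

/-- An element with infinitely many conjugates over a tuple is not algebraic over it. -/
lemma not_mem_acl {ι : Type} [Fintype ι] (x : ι → M) (z : M) (a : ι → Om) (ζ : Om)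
    (h : sys.Sim (cons a ζ) (cons x z)) (hinf : {ξ | Csim (cons a ξ) (cons a ζ)}.Infinite) :
    z ∉ acl sys.lang (Set.range x) := by
  classical
  rintro ⟨S, hS, hfin, hz⟩
  rw [definable_range_iff] at hS
  obtain ⟨φ, rfl⟩ := hS
  let e := hinf.natEmbedding
  let K := hfin.toFinset.card
  let ξ : Fin (K + 1) → Om := fun i => (e i : Om)
  have hax : sys.Sim a x := h.comp Sum.inl
  obtain ⟨d, hd⟩ := hax.extend ξ
  have hmem : ∀ i, d i ∈ hfin.toFinset := by
    intro i
    rw [Set.Finite.mem_toFinset, Set.mem_ofPred_eq]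
    have h1 : sys.Sim (cons a (ξ i)) (cons x (d i)) := by
      have := hd.comp (Sum.map id (fun _ : Unit => i))
      convert this using 1
      · funext t; rcases t with t | t <;> rfl
      · funext t; rcases t with t | t <;> rfl
    have h2 : sys.Sim (cons a (ξ i)) (cons a ζ) := (sim_iff_csim _ _).mpr (e i).2
    rw [← h1.realize, h2.realize, h.realize]
    exact hz
  have hinj : Function.Injective (fun i => (⟨d i, hmem i⟩ : hfin.toFinset)) := by
    intro i j hij
    have h1 : d i = d j := congrArg Subtype.val hij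
    have h2 := (hd.eq_iff (Sum.inr i) (Sum.inr j)).mpr h1
    exact Fin.val_injective (e.injective (Subtype.ext h2))
  have h1 := Fintype.card_le_of_injective _ hinj
  rw [Fintype.card_fin, Fintype.card_coe] at h1
  omega

lemma infinite_generic {ι : Type*} [Fintype ι] (u : ι → Om) (b : Bool) :
    {d | isX d = b ∧ ¬ Dep u d}.Infinite := by
  classical
  intro hfin
  obtain ⟨d, h1, h2, h3⟩ := exists_generic u b (hfin.toFinset.image (fun d => (hat d).1))
  apply h3
  rw [Finset.mem_image]
  exact ⟨d, by rw [Set.Finite.mem_toFinset]; exact ⟨h1, h2⟩, rfl⟩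

/-- The formula defining the affine space. -/
noncomputable def XF : sys.lang.Formula (Fin 1) :=
  Relations.formula (L := sys.lang) (sys.inv (fun _ : Fin 1 => (Sum.inl 0 : Om)) :
    sys.lang.Relations 1) (fun i => Term.var i)

lemma csim_const {c d : Om} (h : isX c = isX d) : Csim (fun _ : Fin 1 => c) (fun _ => d) := by
  refine ⟨fun _ => h, fun _ _ => ⟨fun _ => rfl, fun _ => rfl⟩, fun ε => ?_⟩
  simp only [comb, Finset.univ_unique, Fin.default_eq_zero, Fin.isValue, Finset.sum_singleton]
  rcases zmod2_cases (ε 0) with h0 | h0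
  · rw [h0, zero_smul, zero_smul]
  · rw [h0, one_smul, one_smul]
    rcases c with c | c <;> rcases d with d | d <;> simp_all [isX, hat, Prod.ext_iff]

lemma realize_XF_Om (c : Om) : XF.Realize (fun _ => c) ↔ isX c = true := by
  rw [XF, Formula.realize_rel]
  show sys.inv (fun _ : Fin 1 => c) = sys.inv (fun _ : Fin 1 => (Sum.inl 0 : Om)) ↔ _
  rw [← Sys.sim_iff_inv, sim_iff_csim]
  constructor
  · intro h
    exact h.sort 0
  · intro h
    exact csim_const h

lemma solutions_XF_iff {ι : Type*} {a : ι → Om} {x : ι → M} (h : sys.Sim a x) (i : ι) :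
    x i ∈ solutions M XF ↔ isX (a i) = true := by
  rw [← realize_XF_Om]
  exact ((h.comp (fun _ : Fin 1 => i)).realize XF).symm

/-- The affine space is strongly minimal in every model. -/
lemma strongly_minimal (S : Set M) (hS : (Set.univ : Set M).Definable₁ sys.lang S) :
    ¬ ((solutions M XF ∩ S).Infinite ∧ (solutions M XF \ S).Infinite) := by
  classical
  rintro ⟨h1, h2⟩
  obtain ⟨A, φ, rfl⟩ := definable_univ_iff S hS
  let K := Fintype.card (A → ZMod 2)
  let e1 := h1.natEmbedding
  let e2 := h2.natEmbedding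
  let u : Fin (K + 1) → M := fun i => (e1 i : M)
  let v : Fin (K + 1) → M := fun i => (e2 i : M)
  obtain ⟨t, ht⟩ := Sys.exists_sim (S := sys)
    (Sum.elim (Sum.elim (fun a : A => (a : M)) u) v)
  let a : A → Om := fun i => t (.inl (.inl i))
  let u' : Fin (K + 1) → Om := fun i => t (.inl (.inr i))
  let v' : Fin (K + 1) → Om := fun i => t (.inr i)
  have key : ∀ z : Fin (K + 1) → Om, (∀ i, isX (z i) = true) → Function.Injective z →
      ∃ i, ¬ Dep a (z i) := by
    intro z hz hinj
    by_contra hno
    push Not at hno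
    choose ε hε using hno
    have h3 : Function.Injective ε := by
      intro i j hij
      apply hinj
      apply eq_of_hat _ _ (hz i) (hz j)
      rw [hε, hε, hij]
    have h4 := Fintype.card_le_of_injective _ h3
    rw [Fintype.card_fin] at h4
    exact absurd h4 (by show ¬ (K + 1 ≤ K); omega)
  obtain ⟨i, hi⟩ := key u' (fun i => (solutions_XF_iff ht (.inl (.inr i))).mp (e1 i).2.1) (by
    intro i j hij
    have h3 := (ht.eq_iff (.inl (.inr i)) (.inl (.inr j))).mp hij
    exact Fin.val_injective (e1.injective (Subtype.ext h3)))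
  obtain ⟨j, hj⟩ := key v' (fun i => (solutions_XF_iff ht (.inr i)).mp (e2 i).2.1) (by
    intro i j hij
    have h3 := (ht.eq_iff (.inr i) (.inr j)).mp hij
    exact Fin.val_injective (e2.injective (Subtype.ext h3)))
  have hsort : isX (u' i) = isX (v' j) :=
    ((solutions_XF_iff ht (.inl (.inr i))).mp (e1 i).2.1).trans
      ((solutions_XF_iff ht (.inr j)).mp (e2 j).2.1).symm
  have h3 : sys.Sim (cons a (u' i)) (cons a (v' j)) :=
    (sim_iff_csim _ _).mpr (csim_generic (Csim.refl a) hsort hi hj)
  have h4 : sys.Sim (cons a (u' i)) (cons (fun a : A => (a : M)) (u i)) := by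
    have := ht.comp (Sum.elim (fun a => .inl (.inl a)) (fun _ : Unit => .inl (.inr i)))
    convert this using 1
    · funext s; rcases s with s | s <;> rfl
    · funext s; rcases s with s | s <;> rfl
  have h5 : sys.Sim (cons a (v' j)) (cons (fun a : A => (a : M)) (v j)) := by
    have := ht.comp (Sum.elim (fun a => .inl (.inl a)) (fun _ : Unit => .inr j))
    convert this using 1
    · funext s; rcases s with s | s <;> rfl
    · funext s; rcases s with s | s <;> rfl
  have h6 : φ.Realize (cons (fun a : A => (a : M)) (u i)) := (e1 i).2.2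
  have h7 : ¬ φ.Realize (cons (fun a : A => (a : M)) (v j)) := (e2 j).2.2
  apply h7
  rw [← h5.realize, ← h3.realize, h4.realize]
  exact h6

/-- The type of the elements of the affine space. -/
noncomputable def ptype : sys.thy.CompleteType (Fin 1) :=
  Theory.typeOf sys.thy (fun _ : Fin 1 => (Sum.inl 0 : Om))

lemma isStronglyMinimal_ptype : IsStronglyMinimalType ptype M := by
  have hsplit : ∀ S₁ S₂ : Set M, (Set.univ : Set M).Definable₁ sys.lang S₁ →
      S₁ ⊆ solutions M XF → S₂ ⊆ solutions M XF → Disjoint S₁ S₂ → S₁.Infinite → S₂.Infinite →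
      False := by
    intro S₁ S₂ hd h1 h2 h3 h4 h5
    apply strongly_minimal S₁ hd
    constructor
    · rwa [Set.inter_eq_right.mpr h1]
    · apply h5.mono
      intro x hx
      exact ⟨h2 hx, Set.disjoint_right.mp h3 hx⟩
  refine ⟨fun φ hφ => ?_, XF, ?_, ?_, ?_⟩
  · rw [rankGE_one_iff]
    have hφ' : φ.Realize (fun _ : Fin 1 => (Sum.inl 0 : Om)) :=
      (Theory.CompleteType.formula_mem_typeOf).mp hφ
    -- lift arbitrarily many elements of the affine space
    intro hfin
    obtain ⟨a, ha⟩ := Sys.exists_sim (S := sys) (fun i : Empty => (i.elim : M))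
    let K := hfin.toFinset.card
    obtain ⟨x, hx⟩ := ha.extend (fun i : Fin (K + 1) => (Sum.inl (Finsupp.single i.1 1) : Om))
    have hmem : ∀ i, x i ∈ hfin.toFinset := by
      intro i
      rw [Set.Finite.mem_toFinset]
      show φ.Realize (fun _ => x i)
      have h1 : sys.Sim (fun _ : Fin 1 => (Sum.inl (Finsupp.single i.1 1) : Om))
        (fun _ : Fin 1 => x i) := hx.comp (fun _ : Fin 1 => Sum.inr i)
      rw [← h1.realize]
      have h2 : sys.Sim (fun _ : Fin 1 => (Sum.inl (Finsupp.single i.1 1) : Om))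
        (fun _ : Fin 1 => (Sum.inl 0 : Om)) := (sim_iff_csim _ _).mpr (csim_const rfl)
      rw [h2.realize]
      exact hφ'
    have hinj : Function.Injective (fun i => (⟨x i, hmem i⟩ : hfin.toFinset)) := by
      intro i j hij
      have h1 : x i = x j := congrArg Subtype.val hij
      have h2 := (hx.eq_iff (Sum.inr i) (Sum.inr j)).mpr h1
      have h3 : (Finsupp.single i.1 1 : V) = Finsupp.single j.1 1 := Sum.inl_injective h2
      exact Fin.val_injective (Finsupp.single_left_injective one_ne_zero h3)
    have h1 := Fintype.card_le_of_injective _ hinj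
    rw [Fintype.card_fin, Fintype.card_coe] at h1
    omega
  · exact (Theory.CompleteType.formula_mem_typeOf).mpr ((realize_XF_Om _).mpr rfl)
  · rintro ⟨F, hF, hd⟩
    exact hsplit (F 0) (F 1) (hF 0).1 (hF 0).2.1 (hF 1).2.1 (hd 0 1 (by decide))
      ((rankGE_one_iff _).mp (hF 0).2.2) ((rankGE_one_iff _).mp (hF 1).2.2)
  · rintro ⟨S₁, S₂, h1, _, h3, h4, h5, h6, h7⟩
    exact hsplit S₁ S₂ h1 h3 h4 h5 ((rankGE_one_iff _).mp h6) ((rankGE_one_iff _).mp h7)

end geometry


/-! ### The configuration -/

section configuration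

/-- Independent elements of the cover. -/
noncomputable def alpha (k : ℕ) : Fin k → Om := fun i => .inr (Finsupp.single i.1 1, 0)

/-- A point of the affine space. -/
noncomputable def beta : Om := .inl 0

/-- The translate of `beta` by the sum of the vectors of the `alpha i`. -/
noncomputable def gamma (k : ℕ) : Om := .inl (∑ i : Fin k, Finsupp.single i.1 1)

lemma alpha_injective (k : ℕ) : Function.Injective (alpha k) := by
  intro i j h
  have h1 : ((Finsupp.single i.1 1 : V), 0) = ((Finsupp.single j.1 1 : V), 0) := Sum.inr_injective h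
  exact Fin.val_injective (Finsupp.single_left_injective one_ne_zero (Prod.ext_iff.mp h1).1)

lemma hat_gamma (k : ℕ) (hk : Even k) :
    hat (gamma k) = comb (cons (alpha k) beta) (fun _ => 1) := by
  rw [comb_cons]
  unfold comb
  simp only [Function.comp_apply, one_smul]
  refine Prod.ext ?_ (Prod.ext ?_ ?_)
  · simp [Prod.fst_sum, hat, alpha, beta, gamma]
  · simp [Prod.snd_sum, hat, alpha, beta, gamma]
  · have : ((k : ℕ) : ZMod 2) = 0 := by
      rw [ZMod.natCast_eq_zero_iff]
      exact hk.two_dvd
    simp [Prod.snd_sum, hat, alpha, beta, gamma, this]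

/-- If one of the `alpha j` is removed, `gamma` becomes independent. -/
lemma not_dep_gamma (k : ℕ) (j : Fin k) :
    ¬ Dep (cons (fun i : {i : Fin k // i ≠ j} => alpha k i) beta) (gamma k) := by
  classical
  rintro ⟨ε, hε⟩
  rw [comb_cons] at hε
  have h1 := congrArg (fun x : V × ZMod 2 × ZMod 2 => x.1 j.1) hε
  simp only [comb, Prod.fst_add, Prod.fst_sum, Prod.smul_fst, hat, alpha, beta, gamma,
    smul_zero, add_zero, Finsupp.finsetSum_apply, Finsupp.smul_apply, Function.comp_apply] at h1
  rw [Finset.sum_eq_single j] at h1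
  · rw [Finsupp.single_eq_same, Finset.sum_eq_zero] at h1
    · exact one_ne_zero h1
    · intro i _
      rw [Finsupp.single_eq_of_ne, smul_zero]
      intro h
      exact i.2 (Fin.val_injective h.symm)
  · intro i _ hi
    rw [Finsupp.single_eq_of_ne]
    intro h
    exact hi (Fin.val_injective h.symm)
  · intro h
    exact absurd (Finset.mem_univ _) h

/-- Elements outside a finite subset of the cover have infinitely many conjugates over it. -/
lemma infinite_conj {ι : Type*} [Fintype ι] (a : ι → Om) (ha : ∀ i, isX (a i) = false) (ζ : Om)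
    (hζ : ∀ i, ζ ≠ a i) : {ξ | Csim (cons a ξ) (cons a ζ)}.Infinite := by
  classical
  by_cases hd : Dep a ζ
  · obtain ⟨ε, hε⟩ := hd
    -- `ζ` lies in the cover
    have hX : isX ζ = false := by
      have h1 : ∀ i, (hat (a i)).2.1 = 0 := by
        intro i
        have := ha i
        rcases h : a i with c | c <;> simp_all [isX, hat]
      have h2 : (hat ζ).2.1 = 0 := by
        rw [hε, comb, Prod.snd_sum, Prod.fst_sum]
        apply Finset.sum_eq_zero
        intro i _
        rw [Prod.smul_snd, Prod.smul_fst, h1, smul_zero]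
      rcases ζ with c | c
      · simp [hat] at h2
      · rfl
    have hfin : {m : ℕ | ∃ i, (Sum.inr ((comb a ε).1, m) : Om) = a i}.Finite := by
      have h1 : {m : ℕ | ∃ i, (Sum.inr ((comb a ε).1, m) : Om) = a i} ⊆
          Set.range (fun i => match a i with | .inl _ => 0 | .inr p => p.2) := by
        rintro m ⟨i, hi⟩
        refine ⟨i, ?_⟩
        show (match a i with | .inl _ => 0 | .inr p => p.2) = m
        rw [← hi]
      exact (Set.finite_range _).subset h1
    have hinf := hfin.infinite_compl
    have h2 : (fun m : ℕ => (Sum.inr ((comb a ε).1, m) : Om)) ''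
        {m : ℕ | ∃ i, (Sum.inr ((comb a ε).1, m) : Om) = a i}ᶜ ⊆
        {ξ | Csim (cons a ξ) (cons a ζ)} := by
      rintro _ ⟨m, hm, rfl⟩
      apply csim_fibre (c := .inr ((comb a ε).1, m)) (d := ζ) (Csim.refl a) hX.symm ε _ hε _ hζ
      · refine Prod.ext rfl ?_
        rw [← hε]
        exact hat_snd _ _ hX.symm
      · intro i hi
        exact hm ⟨i, hi⟩
    refine Set.Infinite.mono h2 (hinf.image ?_)
    intro m _ m' _ h
    have h3 := Sum.inr_injective h
    exact (Prod.ext_iff.mp h3).2
  · apply (infinite_generic a (isX ζ)).mono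
    rintro ξ ⟨h1, h2⟩
    exact csim_generic (Csim.refl a) h1 h2 hd

variable {M : Type w} [sys.lang.Structure M] [M ⊨ sys.thy]

theorem configuration [Nonempty M] (n : ℕ) : ∃ (c : M) (b : Fin 1 → M) (A : Set M),
    Theory.typeOf sys.thy (fun _ : Fin 1 => c) = ptype ∧ acl sys.lang A = A ∧
    c ∈ acl sys.lang (A ∪ Set.range b) ∧
    ∀ A' ⊆ A, A'.Finite → A'.ncard ≤ n → c ∉ acl sys.lang (A' ∪ Set.range b) := by
  classical
  let k : ℕ := 2 * (n + 1)
  have hk : Even k := even_two_mul _
  obtain ⟨e, he⟩ := Sys.exists_sim (S := sys) (fun i : Empty => (i.elim : M))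
  obtain ⟨t, ht⟩ := he.extend (cons (cons (alpha k) beta) (gamma k))
  let x : Fin k → M := fun i => t (.inl (.inl i))
  let b : M := t (.inl (.inr ()))
  let c : M := t (.inr ())
  have hall : sys.Sim (cons (cons (alpha k) beta) (gamma k)) (cons (cons x b) c) := by
    have h1 : cons (cons x b) c = t := by
      funext s
      rcases s with (s | s) | s <;> rfl
    rw [h1]
    exact ht.comp Sum.inr
  have hxinj : Function.Injective x := by
    intro i j hij
    exact alpha_injective k ((hall.eq_iff (.inl (.inl i)) (.inl (.inl j))).mpr hij)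
  refine ⟨c, fun _ => b, Set.range x, ?_, ?_, ?_, ?_⟩
  · -- the type of `c`
    refine SetLike.ext fun φ => ?_
    rw [Theory.CompleteType.mem_typeOf, ptype, Theory.CompleteType.mem_typeOf]
    have h1 : sys.Sim (fun _ : Fin 1 => (Sum.inl 0 : Om)) (fun _ : Fin 1 => gamma k) :=
      (sim_iff_csim _ _).mpr (csim_const rfl)
    have h2 : sys.Sim (fun _ : Fin 1 => gamma k) (fun _ : Fin 1 => c) :=
      hall.comp (fun _ => .inr ())
    exact ((h1.trans h2).realize _).symm
  · -- `A` is algebraically closed
    apply Set.Subset.antisymm _ (subset_acl _)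
    intro z hz
    by_contra hzx
    have h1 : sys.Sim x (alpha k) := (hall.comp (fun i => .inl (.inl i))).symm
    obtain ⟨ζ, hζ⟩ := h1.extend (fun _ : Unit => z)
    have hζ' : sys.Sim (cons x z) (cons (alpha k) (ζ ())) := by
      convert hζ using 1
    refine not_mem_acl x z (alpha k) (ζ ()) hζ'.symm ?_ hz
    apply infinite_conj _ (fun _ => rfl)
    intro i hi
    apply hzx
    exact ⟨i, ((hζ'.eq_iff (.inr ()) (.inl i)).mpr hi).symm⟩
  · -- `c` is algebraic over `A` and `b`
    have hr : Set.range x ∪ Set.range (fun _ : Fin 1 => b) = Set.range (cons x b) := by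
      ext y
      constructor
      · rintro (⟨i, rfl⟩ | ⟨_, rfl⟩)
        · exact ⟨.inl i, rfl⟩
        · exact ⟨.inr (), rfl⟩
      · rintro ⟨i | i, rfl⟩
        · exact Or.inl ⟨i, rfl⟩
        · exact Or.inr ⟨0, rfl⟩
    rw [hr]
    obtain ⟨N, ⟨f⟩⟩ := Finite.exists_equiv_fin ((Fin k ⊕ Unit) ⊕ Unit)
    let r := sys.inv ((cons (cons (alpha k) beta) (gamma k)) ∘ f.symm)
    let ψ : sys.lang.Formula ((Fin k ⊕ Unit) ⊕ Unit) :=
      Relations.formula (L := sys.lang) (r : sys.lang.Relations N) (fun i => Term.var (f.symm i))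
    have hψ : ∀ y : M, ψ.Realize (cons (cons x b) y) → y = c := by
      intro y hy
      rw [Formula.realize_rel] at hy
      have h1 := (Sys.sim_of_rel (S := sys) (M := M) _ ((cons (cons x b) y) ∘ f.symm) hy).comp f
      have h2 : sys.Sim (cons (cons (alpha k) beta) (gamma k)) (cons (cons x b) y) := by
        convert h1 using 1
        · funext s; simp
        · funext s; simp
      have h3 : sys.Sim (cons x b) (cons (alpha k) beta) := (hall.comp Sum.inl).symm
      obtain ⟨g, hg⟩ := h3.extend (fun i : Bool => if i then c else y)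
      have h4 : ∀ i, g i = gamma k := by
        intro i
        have h5 : sys.Sim (cons (cons x b) (if i then c else y))
            (cons (cons (alpha k) beta) (g i)) := by
          have := hg.comp (Sum.map id (fun _ : Unit => i))
          convert this using 1
          · funext s; rcases s with s | s <;> rfl
          · funext s; rcases s with s | s <;> rfl
        have h6 : sys.Sim (cons (cons (alpha k) beta) (gamma k))
            (cons (cons (alpha k) beta) (g i)) := by
          cases i with
          | true => exact hall.trans h5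
          | false => exact h2.trans h5
        rw [sim_iff_csim] at h6
        have h7 : isX (gamma k) = isX (g i) := h6.sort (.inr ())
        symm
        apply eq_of_hat _ _ rfl (h7.symm.trans rfl)
        have h8 := (h6.lin (fun _ => 1)).mp (by
          rw [comb_cons, add_eq_zero_vh, one_smul, hat_gamma k hk]
          rfl)
        rw [comb_cons, add_eq_zero_vh, one_smul] at h8
        rw [hat_gamma k hk, ← h8]
        rfl
      have h5 := (hg.eq_iff (.inr false) (.inr true)).mpr ((h4 false).trans (h4 true).symm)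
      exact h5
    refine ⟨{y | ψ.Realize (cons (cons x b) y)}, ?_, ?_, ?_⟩
    · rw [definable_range_iff]
      exact ⟨ψ, rfl⟩
    · apply (Set.finite_singleton c).subset
      intro y hy
      exact hψ y hy
    · rw [Set.mem_ofPred_eq, ← hall.realize, Formula.realize_rel]
      rfl
  · -- `c` is not algebraic over fewer elements
    intro A' hA' _ hcard hc
    obtain ⟨j, hj⟩ : ∃ j, x j ∉ A' := by
      by_contra hno
      push Not at hno
      have h1 : Set.range x = A' := Set.Subset.antisymm (by rintro _ ⟨i, rfl⟩; exact hno i) hA'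
      rw [← h1, Set.ncard_eq_toFinset_card', Set.toFinset_range,
        Finset.card_image_of_injective _ hxinj, Finset.card_univ, Fintype.card_fin] at hcard
      have : k = 2 * (n + 1) := rfl
      omega
    have hsub : A' ∪ Set.range (fun _ : Fin 1 => b) ⊆
        Set.range (cons (fun i : {i : Fin k // i ≠ j} => x i) b) := by
      rintro y (hy | ⟨_, rfl⟩)
      · obtain ⟨i, rfl⟩ := hA' hy
        refine ⟨.inl ⟨i, ?_⟩, rfl⟩
        rintro rfl
        exact hj hy
      · exact ⟨.inr (), rfl⟩
    refine not_mem_acl _ c (cons (fun i : {i : Fin k // i ≠ j} => alpha k i) beta) (gamma k)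
      ?_ ?_ (acl_mono hsub hc)
    · have := hall.comp (Sum.elim (Sum.elim (fun i : {i : Fin k // i ≠ j} => .inl (.inl i.1))
        (fun _ : Unit => .inl (.inr ()))) (fun _ : Unit => .inr ()))
      convert this using 1
      · funext s; rcases s with (s | s) | s <;> rfl
      · funext s; rcases s with (s | s) | s <;> rfl
    · apply (infinite_generic (cons (fun i : {i : Fin k // i ≠ j} => alpha k i) beta) true).mono
      rintro ξ ⟨h1, h2⟩
      exact csim_generic (Csim.refl _) h1 h2 (not_dep_gamma k j)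

end configuration

/-! ### Stability -/

section stability

lemma comb_sum {ι κ : Type*} [Fintype ι] [Fintype κ] (x : ι ⊕ κ → Om) (ε : ι ⊕ κ → ZMod 2) :
    comb x ε = comb (x ∘ Sum.inl) (ε ∘ Sum.inl) + comb (x ∘ Sum.inr) (ε ∘ Sum.inr) := by
  simp [comb, Fintype.sum_sum_type]

/-- A linear relation between the elements of a finite family in a model. -/
def Lin {N : Type w} [sys.lang.Structure N] {ι : Type*} [Fintype ι] (x : ι → N)
    (ε : ι → ZMod 2) : Prop :=
  ∃ a : ι → Om, sys.Sim a x ∧ comb a ε = 0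

lemma lin_iff {N : Type w} [sys.lang.Structure N] [N ⊨ sys.thy] {ι : Type*} [Fintype ι]
    {x : ι → N} {a : ι → Om} (h : sys.Sim a x) (ε : ι → ZMod 2) : Lin x ε ↔ comb a ε = 0 := by
  constructor
  · rintro ⟨b, hb, h0⟩
    have h1 := (sim_iff_csim _ _).mp (hb.trans h.symm)
    exact (h1.lin ε).mp h0
  · intro h0
    exact ⟨a, h, h0⟩

variable {M : Type w} [sys.lang.Structure M]

/-- The interpretation of the parameters. -/
noncomputable def jj (A : Set M) (N : Type w) [sys.lang[[A]].Structure N] : A → N :=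
  fun a => (sys.lang.con a : N)

lemma sentence_iff {A : Set M} {N : Type w} [sys.lang[[A]].Structure N]
    [N ⊨ sys.lang[[A]].completeTheory M] (ψ : sys.lang[[A]].Sentence) : M ⊨ ψ ↔ N ⊨ ψ := by
  have key : ∀ ψ : sys.lang[[A]].Sentence, M ⊨ ψ → N ⊨ ψ := fun ψ hψ =>
    Theory.realize_sentence_of_mem (sys.lang[[A]].completeTheory M) hψ
  refine ⟨key ψ, fun h => ?_⟩
  by_contra hM
  have h2 := key ψ.not (by rw [Sentence.realize_not]; exact hM)
  rw [Sentence.realize_not] at h2
  exact h2 h

variable {A : Set M} {N : Type w} [sys.lang.Structure N] [sys.lang[[A]].Structure N]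
  [(sys.lang.lhomWithConstants A).IsExpansionOn N] [N ⊨ sys.lang[[A]].completeTheory M]

lemma sim_jj : sys.Sim (fun a : A => (a : M)) (jj A N) := by
  intro n σ r
  let φ : sys.lang.Formula A :=
    Relations.formula (L := sys.lang) (r : sys.lang.Relations n) (fun i => Term.var (σ i))
  have h1 := sentence_iff (M := M) (A := A) (N := N) (Formula.equivSentence φ)
  rw [Formula.realize_equivSentence, Formula.realize_equivSentence, Formula.realize_rel,
    Formula.realize_rel] at h1
  exact h1

lemma jj_injective [M ⊨ sys.thy] [N ⊨ sys.thy] : Function.Injective (jj A N) := by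
  intro a b h
  have h1 := (sim_jj (M := M) (A := A) (N := N)).eq_iff a b
  exact Subtype.ext (h1.mpr h)

lemma model_of_params [M ⊨ sys.thy] (A : Set M) (N : Type w) [sys.lang.Structure N]
    [sys.lang[[A]].Structure N] [(sys.lang.lhomWithConstants A).IsExpansionOn N]
    [N ⊨ sys.lang[[A]].completeTheory M] : N ⊨ sys.thy := by
  rw [Theory.model_iff]
  intro φ hφ
  have h1 : M ⊨ φ := Theory.realize_sentence_of_mem sys.thy hφ
  rw [← (sys.lang.lhomWithConstants A).realize_onSentence N φ, ← sentence_iff (M := M),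
    (sys.lang.lhomWithConstants A).realize_onSentence M φ]
  exact h1

/-- The countable set in which the data of a type live. -/
abbrev Data (A : Set M) (n : ℕ) : Type w :=
  sys.Inv n × (Fin n → Option A) ×
    ((Fin n → ZMod 2) → Option (Σ m : ℕ, (Fin m → A) × (Fin m → ZMod 2)))

open Classical in
/-- The data of a tuple over the parameters. -/
noncomputable def data [N ⊨ sys.thy] {n : ℕ} (v : Fin n → N) : Data A n :=
  (sys.inv (Sys.exists_sim (S := sys) v).choose,
    fun l => if h : ∃ a : A, jj A N a = v l then some h.choose else none,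
    fun η => if h : ∃ t : Σ m : ℕ, (Fin m → A) × (Fin m → ZMod 2),
      Lin (Sum.elim (jj A N ∘ t.2.1) v) (Sum.elim t.2.2 η) then some h.choose else none)

variable {N' : Type w} [sys.lang.Structure N'] [sys.lang[[A]].Structure N']
  [(sys.lang.lhomWithConstants A).IsExpansionOn N'] [N' ⊨ sys.lang[[A]].completeTheory M]

/-- The data determine which parameter, if any, an entry is equal to. -/
lemma eq_iff_data [M ⊨ sys.thy] [N ⊨ sys.thy] {n : ℕ} (v : Fin n → N) (a : A) (l : Fin n) :
    jj A N a = v l ↔ (data (M := M) (A := A) v).2.1 l = some a := by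
  classical
  show _ ↔ (if h : ∃ a : A, jj A N a = v l then some h.choose else none) = some a
  constructor
  · intro h
    have h1 : ∃ a : A, jj A N a = v l := ⟨a, h⟩
    rw [dif_pos h1, Option.some.injEq]
    exact jj_injective (N := N) (h1.choose_spec.trans h.symm)
  · intro h
    by_cases h1 : ∃ a : A, jj A N a = v l
    · rw [dif_pos h1, Option.some.injEq] at h
      rw [← h]
      exact h1.choose_spec
    · rw [dif_neg h1] at h
      exact absurd h (by simp)

lemma data_some [N ⊨ sys.thy] {n : ℕ} (v : Fin n → N) (η : Fin n → ZMod 2)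
    (t : Σ m : ℕ, (Fin m → A) × (Fin m → ZMod 2)) (h : (data (A := A) v).2.2 η = some t) :
    Lin (Sum.elim (jj A N ∘ t.2.1) v) (Sum.elim t.2.2 η) := by
  classical
  change (if h : ∃ t : Σ m : ℕ, (Fin m → A) × (Fin m → ZMod 2),
      Lin (Sum.elim (jj A N ∘ t.2.1) v) (Sum.elim t.2.2 η) then some h.choose else none) = some t
    at h
  by_cases h1 : ∃ t : Σ m : ℕ, (Fin m → A) × (Fin m → ZMod 2),
      Lin (Sum.elim (jj A N ∘ t.2.1) v) (Sum.elim t.2.2 η)
  · rw [dif_pos h1, Option.some.injEq] at h
    rw [← h]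
    exact h1.choose_spec
  · rw [dif_neg h1] at h
    exact absurd h (by simp)

lemma data_none [N ⊨ sys.thy] {n : ℕ} (v : Fin n → N) (η : Fin n → ZMod 2)
    (h : (data (A := A) v).2.2 η = none) (m : ℕ) (σ : Fin m → A) (θ : Fin m → ZMod 2) :
    ¬ Lin (Sum.elim (jj A N ∘ σ) v) (Sum.elim θ η) := by
  classical
  intro hl
  change (if h : ∃ t : Σ m : ℕ, (Fin m → A) × (Fin m → ZMod 2),
      Lin (Sum.elim (jj A N ∘ t.2.1) v) (Sum.elim t.2.2 η) then some h.choose else none) = none
    at h
  rw [dif_pos ⟨⟨m, σ, θ⟩, hl⟩] at h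
  exact absurd h (by simp)

lemma comb_equiv {ι κ : Type*} [Fintype ι] [Fintype κ] (e : κ ≃ ι) (x : ι → Om)
    (ε : ι → ZMod 2) : comb (x ∘ e) (ε ∘ e) = comb x ε := by
  unfold comb
  exact Equiv.sum_comp e (fun i => ε i • hat (x i))

/-- If a linear relation involving `v` with coefficients `η` is known, other relations with
coefficients `η` reduce to relations between parameters. -/
lemma lin_reduce [N ⊨ sys.thy] {ι : Type} [Fintype ι] (τ : ι → A) {n m : ℕ} (v : Fin n → N)
    (σ : Fin m → A) (θ : Fin m → ZMod 2) (η : Fin n → ZMod 2)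
    (h : Lin (Sum.elim (jj A N ∘ σ) v) (Sum.elim θ η)) (ε : ι → ZMod 2) :
    Lin (Sum.elim (jj A N ∘ τ) v) (Sum.elim ε η) ↔
      Lin (Sum.elim (jj A N ∘ τ) (jj A N ∘ σ)) (Sum.elim ε θ) := by
  obtain ⟨y, hy⟩ := Sys.exists_sim (S := sys) (Sum.elim (Sum.elim (jj A N ∘ τ) (jj A N ∘ σ)) v)
  have h1 : sys.Sim (Sum.elim (y ∘ Sum.inl ∘ Sum.inr) (y ∘ Sum.inr)) (Sum.elim (jj A N ∘ σ) v) := by
    have := hy.comp (Sum.map Sum.inr id : Fin m ⊕ Fin n → (ι ⊕ Fin m) ⊕ Fin n)
    convert this using 1
    · funext s; rcases s with s | s <;> rfl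
    · funext s; rcases s with s | s <;> rfl
  have h2 : sys.Sim (Sum.elim (y ∘ Sum.inl ∘ Sum.inl) (y ∘ Sum.inr)) (Sum.elim (jj A N ∘ τ) v) := by
    have := hy.comp (Sum.map Sum.inl id : ι ⊕ Fin n → (ι ⊕ Fin m) ⊕ Fin n)
    convert this using 1
    · funext s; rcases s with s | s <;> rfl
    · funext s; rcases s with s | s <;> rfl
  have h3 : sys.Sim (Sum.elim (y ∘ Sum.inl ∘ Sum.inl) (y ∘ Sum.inl ∘ Sum.inr))
      (Sum.elim (jj A N ∘ τ) (jj A N ∘ σ)) := by
    have := hy.comp (Sum.inl : ι ⊕ Fin m → (ι ⊕ Fin m) ⊕ Fin n)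
    convert this using 1
    · funext s; rcases s with s | s <;> rfl
    · rw [Sum.elim_comp_inl]
  rw [lin_iff h1, comb_sum, add_eq_zero_vh] at h
  simp only [Sum.elim_comp_inl, Sum.elim_comp_inr] at h
  rw [lin_iff h2, lin_iff h3, comb_sum, comb_sum]
  simp only [Sum.elim_comp_inl, Sum.elim_comp_inr]
  rw [h]

/-- Tuples with the same data over the parameters are indistinguishable over the parameters. -/
theorem sim_of_data [M ⊨ sys.thy] [N ⊨ sys.thy] [N' ⊨ sys.thy] {n : ℕ} (v : Fin n → N)
    (v' : Fin n → N') (hD : data (M := M) (A := A) v = data (M := M) (A := A) v') :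
    sys.Sim (Sum.elim (jj A N) v) (Sum.elim (jj A N') v') := by
  classical
  have key : ∀ (ι : Type) [Fintype ι] (τ : ι → A),
      sys.Sim (Sum.elim (jj A N ∘ τ) v) (Sum.elim (jj A N' ∘ τ) v') := by
    intro ι _ τ
    obtain ⟨a, ha⟩ := Sys.exists_sim (S := sys) (Sum.elim (jj A N ∘ τ) v)
    obtain ⟨a', ha'⟩ := Sys.exists_sim (S := sys) (Sum.elim (jj A N' ∘ τ) v')
    -- any two families of parameters are similar
    have hpar : ∀ {κ : Type} (ρ : κ → A), sys.Sim (jj A N ∘ ρ) (jj A N' ∘ ρ) := fun ρ =>
      ((sim_jj (M := M) (A := A) (N := N)).comp ρ).symm.trans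
        ((sim_jj (M := M) (A := A) (N := N')).comp ρ)
    have h1 : Csim (a ∘ Sum.inl) (a' ∘ Sum.inl) := by
      rw [← sim_iff_csim]
      exact ((ha.comp Sum.inl).trans (hpar τ)).trans (ha'.comp Sum.inl).symm
    have h2 : sys.Sim v v' := by
      have e1 := (Sys.exists_sim (S := sys) v).choose_spec
      have e2 := (Sys.exists_sim (S := sys) v').choose_spec
      have e3 : sys.inv (Sys.exists_sim (S := sys) v).choose =
          sys.inv (Sys.exists_sim (S := sys) v').choose := congrArg Prod.fst hD
      rw [← Sys.sim_iff_inv] at e3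
      exact (e1.symm.trans e3).trans e2
    have h3 : Csim (a ∘ Sum.inr) (a' ∘ Sum.inr) := by
      rw [← sim_iff_csim]
      exact ((ha.comp Sum.inr).trans h2).trans (ha'.comp Sum.inr).symm
    have hcross : ∀ i l, a (.inl i) = a (.inr l) ↔ a' (.inl i) = a' (.inr l) := by
      intro i l
      rw [ha.eq_iff, ha'.eq_iff]
      show jj A N (τ i) = v l ↔ jj A N' (τ i) = v' l
      rw [eq_iff_data (M := M) v, eq_iff_data (M := M) v', hD]
    have hlin : ∀ ε : ι ⊕ Fin n → ZMod 2, Lin (Sum.elim (jj A N ∘ τ) v) ε ↔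
        Lin (Sum.elim (jj A N' ∘ τ) v') ε := by
      intro ε
      have hε : ε = Sum.elim (ε ∘ Sum.inl) (ε ∘ Sum.inr) := (Sum.elim_comp_inl_inr ε).symm
      cases hη : (data (M := M) (A := A) v).2.2 (ε ∘ Sum.inr) with
      | none =>
        have hη' : (data (M := M) (A := A) v').2.2 (ε ∘ Sum.inr) = none := by rw [← hD]; exact hη
        obtain ⟨m, ⟨f⟩⟩ := Finite.exists_equiv_fin ι
        constructor
        · intro h
          exfalso
          apply data_none v _ hη m (τ ∘ f.symm) ((ε ∘ Sum.inl) ∘ f.symm)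
          obtain ⟨b, hb, hb0⟩ := h
          refine ⟨b ∘ (Equiv.sumCongr f.symm (Equiv.refl _)), ?_, ?_⟩
          · have := hb.comp (Equiv.sumCongr f.symm (Equiv.refl (Fin n)))
            convert this using 1
            funext s; rcases s with s | s <;> rfl
          · rw [← hb0, ← comb_equiv (Equiv.sumCongr f.symm (Equiv.refl (Fin n))) b ε]
            congr 1
            funext s; rcases s with s | s <;> rfl
        · intro h
          exfalso
          apply data_none v' _ hη' m (τ ∘ f.symm) ((ε ∘ Sum.inl) ∘ f.symm)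
          obtain ⟨b, hb, hb0⟩ := h
          refine ⟨b ∘ (Equiv.sumCongr f.symm (Equiv.refl _)), ?_, ?_⟩
          · have := hb.comp (Equiv.sumCongr f.symm (Equiv.refl (Fin n)))
            convert this using 1
            funext s; rcases s with s | s <;> rfl
          · rw [← hb0, ← comb_equiv (Equiv.sumCongr f.symm (Equiv.refl (Fin n))) b ε]
            congr 1
            funext s; rcases s with s | s <;> rfl
      | some t =>
        have hη' : (data (M := M) (A := A) v').2.2 (ε ∘ Sum.inr) = some t := by rw [← hD]; exact hη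
        have e1 := data_some v _ t hη
        have e2 := data_some v' _ t hη'
        rw [hε, lin_reduce τ v t.2.1 t.2.2 _ e1, lin_reduce τ v' t.2.1 t.2.2 _ e2]
        obtain ⟨b, hb⟩ := Sys.exists_sim (S := sys) (Sum.elim (jj A N ∘ τ) (jj A N ∘ t.2.1))
        have hb' : sys.Sim b (Sum.elim (jj A N' ∘ τ) (jj A N' ∘ t.2.1)) := by
          have h4 := hpar (Sum.elim τ t.2.1)
          rw [Sum.comp_elim, Sum.comp_elim] at h4
          exact hb.trans h4
        rw [lin_iff hb, lin_iff hb']
    have hcs : Csim a a' := by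
      refine ⟨?_, ?_, ?_⟩
      · rintro (i | i)
        · exact h1.sort i
        · exact h3.sort i
      · rintro (i | i) (l | l)
        · exact h1.eq i l
        · exact hcross i l
        · rw [eq_comm, hcross l i, eq_comm]
        · exact h3.eq i l
      · intro ε
        rw [← lin_iff ha, ← lin_iff ha']
        exact hlin ε
    exact (ha.symm.trans ((sim_iff_csim a a').mpr hcs)).trans ha'
  intro k σ r
  let ι : Type := {i : Fin k // (σ i).isLeft}
  let τ : ι → A := fun i => (σ i.1).getLeft i.2
  let σ' : Fin k → ι ⊕ Fin n := fun i =>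
    if h : (σ i).isLeft then .inl ⟨i, h⟩ else .inr ((σ i).getRight (by simpa using h))
  have h1 : ∀ {P : Type w} (f : A → P) (g : Fin n → P),
      (Sum.elim (f ∘ τ) g) ∘ σ' = (Sum.elim f g) ∘ σ := by
    intro P f g
    funext i
    simp only [Function.comp_apply, σ']
    by_cases h : (σ i).isLeft
    · rw [dif_pos h]
      show f ((σ i).getLeft h) = _
      conv_rhs => rw [← Sum.inl_getLeft (σ i) h]
      rfl
    · rw [dif_neg h]
      show g _ = _
      conv_rhs => rw [← Sum.inr_getRight (σ i) (by simpa using h)]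
      rfl
  have h2 := key ι τ k σ' r
  rw [h1, h1] at h2
  exact h2


lemma typeOf_eq_of_data [M ⊨ sys.thy] [N ⊨ sys.thy] [N' ⊨ sys.thy] [Nonempty N] [Nonempty N']
    {n : ℕ} (v : Fin n → N) (v' : Fin n → N')
    (hD : data (M := M) (A := A) v = data (M := M) (A := A) v') :
    (sys.lang[[A]].completeTheory M).typeOf v = (sys.lang[[A]].completeTheory M).typeOf v' := by
  have h := sim_of_data v v' hD
  refine SetLike.ext fun φ => ?_
  rw [Theory.CompleteType.mem_typeOf, Theory.CompleteType.mem_typeOf]
  have key : ∀ (ψ : sys.lang[[A]].Formula (Fin n)) {P : Type w} [sys.lang.Structure P]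
      [sys.lang[[A]].Structure P] [(sys.lang.lhomWithConstants A).IsExpansionOn P] (z : Fin n → P),
      Formula.Realize (BoundedFormula.constantsVarsEquiv ψ : sys.lang.Formula (A ⊕ Fin n))
        (Sum.elim (jj A P) z) ↔ ψ.Realize z := by
    intro ψ P _ _ _ z
    exact BoundedFormula.realize_constantsVarsEquiv
  rw [← key, ← key]
  exact h.realize _

/-- The theory is `ω`-stable. -/
theorem omegaStable : OmegaStable.{w} sys.thy := by
  classical
  intro M _ _ _ A hA n
  have : Countable A := hA.to_subtype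
  have hreal : ∀ q : (sys.lang[[A]].completeTheory M).CompleteType (Fin n),
      ∃ d : Data A n, ∃ (N : Type w) (_ : sys.lang.Structure N) (_ : sys.lang[[A]].Structure N)
        (_ : (sys.lang.lhomWithConstants A).IsExpansionOn N)
        (_ : N ⊨ sys.lang[[A]].completeTheory M) (_ : Nonempty N) (_ : N ⊨ sys.thy)
        (v : Fin n → N),
        (sys.lang[[A]].completeTheory M).typeOf v = q ∧ data (M := M) (A := A) v = d := by
    intro q
    obtain ⟨N, v, hv⟩ := Theory.exists_modelType_is_realized_in _ q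
    let : sys.lang.Structure N := (sys.lang.lhomWithConstants A).reduct N
    have : (sys.lang.lhomWithConstants A).IsExpansionOn N :=
      LHom.isExpansionOn_reduct _ _
    have : N ⊨ sys.thy := model_of_params (M := M) A N
    exact ⟨_, N, inferInstance, inferInstance, inferInstance, inferInstance, inferInstance,
      inferInstance, v, hv, rfl⟩
  choose d hd using hreal
  have hinj : Function.Injective d := by
    intro q q' hqq
    obtain ⟨N, _, _, _, _, _, _, v, hv, hdv⟩ := hd q
    obtain ⟨N', _, _, _, _, _, _, v', hv', hdv'⟩ := hd q'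
    rw [← hv, ← hv']
    exact typeOf_eq_of_data v v' (by rw [hdv, hdv', hqq])
  have : ∀ k, Finite (sys.Inv k) := sys.fin
  exact hinj.countable

end stability

/-! ### The theorem -/

lemma card_lang : sys.lang.card ≤ ℵ₀ := by
  have : ∀ k, Finite (sys.lang.Relations k) := sys.fin
  have : ∀ k, Countable (sys.lang.Functions k) := fun k => inferInstanceAs (Countable Empty)
  exact Cardinal.mk_le_aleph0

lemma categorical : Cardinal.Categorical.{0, 0, w} ℵ₀ sys.thy := by
  intro M N hM hN
  have : Countable M := Cardinal.mk_le_aleph0_iff.mp hM.le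
  have : Countable N := Cardinal.mk_le_aleph0_iff.mp hN.le
  obtain ⟨f⟩ := sys.nonempty_equiv (M := M)
  obtain ⟨g⟩ := sys.nonempty_equiv (M := N)
  exact ⟨g.comp f.symm⟩

/-- **The answer to Mazoyer's question is negative.** There are a complete, `ω`-categorical and
`ω`-stable theory `T` in a countable language and a complete type `p` over the empty set of Morley
rank `1` and Morley degree `1` such that in every model `M` of `T` and for every `n` there are a
realization `c` of `p`, an element `b` and an algebraically closed set `A` with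
`c ∈ acl (A ∪ {b})`, but `c ∉ acl (A' ∪ {b})` for all `A' ⊆ A` with at most `n` elements. -/
theorem result : ∃ (L : FirstOrder.Language.{0, 0}) (T : L.Theory) (p : T.CompleteType (Fin 1)),
    L.card ≤ ℵ₀ ∧ T.IsComplete ∧ Cardinal.Categorical.{0, 0, w} ℵ₀ T ∧ OmegaStable.{w} T ∧
    ∀ (M : Type w) [L.Structure M] [Nonempty M] [M ⊨ T],
      IsStronglyMinimalType p M ∧
      ∀ n : ℕ, ∃ (c : M) (k : ℕ) (b : Fin k → M) (A : Set M),
        T.typeOf (fun _ : Fin 1 => c) = p ∧ acl L A = A ∧ c ∈ acl L (A ∪ Set.range b) ∧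
        ∀ A' ⊆ A, A'.Finite → A'.ncard ≤ n → c ∉ acl L (A' ∪ Set.range b) := by
  refine ⟨sys.lang, sys.thy, ptype, card_lang, completeTheory.isComplete _ _, categorical,
    omegaStable, fun M _ _ _ => ⟨isStronglyMinimal_ptype, fun n => ?_⟩⟩
  obtain ⟨c, b, A, h⟩ := configuration (M := M) n
  exact ⟨c, 1, b, A, h⟩

end Pool.Agent.Results.MP_5076ba_lc.Mazoyer
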